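import Mathlib
import Pool.Agent.H148R3.NJ2

/-!
# The conjecture `n(L_p(μ)) = κ_p` for complex scalars fails for every `p ≠ 2`

`numRadius` and `numIndex` (the numerical radius of an operator and the numerical index of a
complex normed space) are defined in `Pool/Agent/H148R3/NIDefs.lean`; `kappa` (the number `κ_p`) is
defined in `Pool/Agent/H148R3/NJ2.lean`.

Outline of the proof.

* *All `p ≠ 2`.*  Put `q = p / (p - 1)` and, for small `s > 0`, let `T_s` be the operator with matrix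
  `E_{12} + s diag(q, -p)` in two coordinates.  At a state with masses `ρ₀, ρ₁` on the two
  coordinates its value is at most `ρ₀^{1/q} ρ₁^{1/p} + s |q ρ₀ - p ρ₁|`, and a refined weighted
  arithmetic-geometric mean inequality shows that the first term is at most
  `κ_p (1 - c |q ρ₀ - p ρ₁|²)`; so `v(T_s) ≤ κ_p + C s²`.  On the other hand
  `‖T_s‖^p ≥ 1 + s^{min(p,q)}`, and `min(p,q) < 2`.
* *`p` close to `2`.*  The rank one operator `T x = φ(x) y` on `ℓ_p`,
  `φ(x) = (x₀ + x₁)/2 + x₂/√2`, `y = (e₀ - e₁)/√2`, has, with `1/p = 1/2 - δ`,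
  `v(T) ≤ (1 + δ/4)/2` and `‖T‖ ≥ 1 + 0.3 δ` for small `δ > 0`.
-/

set_option autoImplicit false

open scoped ENNReal

namespace Pool.Agent.Results.MP_95d40a_an.ComplexConjecture

open Pool.Agent.H148R3.NI Pool.Agent.H148R3.NJ

universe u

/-- For complex scalars the conjectured value `κ_p` of `n(L_p(μ))` is wrong for every `p ≠ 2`:
every complex space `ℓ_p(ι)` of dimension at least two has numerical index less than `κ_p`.
Moreover `n(ℓ_p) ≤ 1/2 - (p - 2)/200` for `p > 2` close to `2`, although `κ_p ≥ 1/2`. -/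
theorem result :
    (∀ (p : ℝ≥0∞) [Fact (1 ≤ p)], 1 < p → p ≠ ∞ → p ≠ 2 → ∀ (ι : Type u) [Nontrivial ι],
      numIndex (lp (fun _ : ι => ℂ) p) < kappa p.toReal) ∧
    (∃ ε : ℝ, 0 < ε ∧ ∀ (p : ℝ≥0∞) [Fact (1 ≤ p)], 2 < p.toReal → p.toReal < 2 + ε →
      numIndex (lp (fun _ : ℕ => ℂ) p) ≤ 1 / 2 - (p.toReal - 2) / 200) :=
  ⟨fun p _ h1 htop h2 _ _ => below_kappa p h1 htop h2, near_two⟩

end Pool.Agent.Results.MP_95d40a_an.ComplexConjecture
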