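import Mathlib
import Pool.Agent.H148R3.NM4

/-!
# Complex scalars: `n(L_p) → 1` as `p → ∞` and as `p → 1`

`numRadius` and `numIndex` (the numerical radius of an operator and the numerical index of a
complex normed space) are defined in `Pool/Agent/H148R3/NIDefs.lean`.

Outline of the proof.  Let `T` be an operator on `ℓ_p(ι)`, `v = v(T)`, `x` finitely supported.
Split the coordinates into finitely many classes according to the phase of `conj(x_i) (T x)_i`,
up to an error `δ`.  For one class let `u` be the part of `x` on it and `w = x - u`; testing `T`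
on `u + l σ w` with `|σ| = 1`, `0 < l ≤ 1`, gives
`l |⟨u*, T x⟩| ≤ v (‖u‖^p + 3 l^{p-1} ‖x‖^p)`.  Summing over the `k` classes,
`l (1 - δ) ∑ |x_i|^{p-1} |(T x)_i| ≤ v (1 + 3 k l^{p-1}) ‖x‖^p`, and `|v|(T) ≥ κ_p ‖T‖` yields
`n(ℓ_p(ι)) ≥ κ_p l (1 - δ) / (1 + 3 k l^{p-1})`, where `k` depends only on `δ`.  Exchanging the
roles of `x` and `x*` gives the same with `l^{1/(p-1)}` in place of `l^{p-1}`.
-/

set_option autoImplicit false

open scoped ENNReal

namespace Pool.Agent.Results.MP_95d40a_an.ComplexLimit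

open Pool.Agent.H148R3.NI Pool.Agent.H148R3.NM

universe u

/-- For complex scalars the numerical index of `ℓ_p(ι)` tends to `1` as `p → ∞` and as `p → 1`,
uniformly in the nonempty index set `ι`. -/
theorem result (ε : ℝ) (hε : 0 < ε) : ∃ K : ℝ, 1 < K ∧ ∀ (p : ℝ≥0∞) [Fact (1 ≤ p)], 1 < p →
    p ≠ ∞ → (K < p.toReal ∨ K < p.toReal / (p.toReal - 1)) → ∀ (ι : Type u) [Nonempty ι],
    1 - ε ≤ numIndex (lp (fun _ : ι => ℂ) p) :=
  limit_two hε

end Pool.Agent.Results.MP_95d40a_an.ComplexLimit
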