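import Mathlib
import Pool.Agent.H148R3.NK4

/-!
# Real scalars: `n(L_p) ≥ κ_p M_p`

`numRadius`, `numIndex` (the numerical radius of an operator and the numerical index of a real
normed space), `kappa` (the number `κ_p`) and `bigM` (the number `M_p`) are defined in
`Pool/Agent/H148R3/NKDefs.lean`.

Outline of the proof.  Let `T` be an operator on the real space `ℓ_p(ι)`, `v = v(T)`, and
`|v|(T) = sup {∑ |x_i|^{p-1} |(T x)_i| : ‖x‖ = 1}`.

* *`v(T) ≥ M_p |v|(T)`.*  Let `x` be finitely supported and split `x = u + w` according to the sign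
  of `x_i (T x)_i`.  With `c = ⟨u*, T u⟩`, `a = ⟨u*, T w⟩`, `b = ⟨w*, T u⟩`, `d = ⟨w*, T w⟩` one has
  `∑ |x_i|^{p-1} |(T x)_i| = c + a - b - d`, and testing `T` on `u ± l w` gives
  `|c + l^p d| + |l a + l^{p-1} b| ≤ v (‖u‖^p + l^p ‖w‖^p)` for all `l > 0`.  For every `t ∈ (0,1)`
  with `t ≠ t^{p-1}`, using this for the two values `l = t / s` and `l = 1 / (t s)`, where
  `s = ‖w‖ / ‖u‖`, and four elementary inequalities (two of which rest on Bernoulli's inequality),
  one gets `(c + a - b - d) |t - t^{p-1}| / (1 + t^p) ≤ v ‖x‖^p`.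
* *`|v|(T) ≥ κ_p ‖T‖`* (known).  For `x` and `y = T x` replace `x` by a point `z` with
  `|z_i| = max(|x_i|, τ |y_i|)`: since `∑ m_i^{p-1} |(T z)_i|` is convex in `z`, the signs of `z`
  can be chosen so that it does not decrease.
-/

set_option autoImplicit false

open scoped ENNReal

namespace Pool.Agent.Results.MP_95d40a_an.RealLowerBound

open Pool.Agent.H148R3.NK

universe u

/-- For real scalars and `1 < p < ∞`, the numerical index of `ℓ_p(ι)` is at least `κ_p M_p`. -/
theorem result (p : ℝ≥0∞) [Fact (1 ≤ p)] (h1 : 1 < p) (htop : p ≠ ∞) (ι : Type u) [Nonempty ι] :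
    kappa p.toReal * bigM p.toReal ≤ numIndex (lp (fun _ : ι => ℝ) p) := by
  classical
  exact real_lower h1 htop

end Pool.Agent.Results.MP_95d40a_an.RealLowerBound
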